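import Pool.Agent.H77.HlDefs

namespace Pool.Agent.Results.MP_1619cf_an.TraceNorm

open H77.Hl Matrix
open scoped MatrixOrder ComplexOrder

/-- The complex matrix `a bᵀ` of two real vectors. -/
def R (a b : Fin 3 → ℝ) : Matrix (Fin 3) (Fin 3) ℂ := fun i j => (a i * b j : ℝ)

theorem R_psd (b : Fin 3 → ℝ) : (R b b).PosSemidef := by
  convert posSemidef_vecMulVec_self_star (fun i => (b i : ℂ)) using 1
  ext i j; simp [R, vecMulVec]

theorem tn2 {a a' b b' : Fin 3 → ℝ} {A A' B B' : ℝ} (hA : 0 ≤ A) (hA' : 0 ≤ A') (hB : 0 < B)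
    (hB' : 0 < B') (h1 : a ⬝ᵥ a = A ^ 2) (h2 : a' ⬝ᵥ a' = A' ^ 2) (h3 : a ⬝ᵥ a' = 0)
    (h4 : b ⬝ᵥ b = B ^ 2) (h5 : b' ⬝ᵥ b' = B' ^ 2) (h6 : b ⬝ᵥ b' = 0)
    {X : Matrix (Fin 3) (Fin 3) ℂ} (hX : X = R a b + R a' b') : tn X = A * B + A' * B' := by
  obtain ⟨k, rfl⟩ : ∃ k, A = k * B := ⟨A / B, by field_simp⟩
  obtain ⟨k', rfl⟩ : ∃ k, A' = k * B' := ⟨A' / B', by field_simp⟩
  have k0 : 0 ≤ k := nonneg_of_mul_nonneg_left hA hB
  have k1 : 0 ≤ k' := nonneg_of_mul_nonneg_left hA' hB'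
  simp only [dotProduct, Fin.sum_univ_three] at h1 h2 h3 h4 h5 h6
  have : CFC.sqrt (Xᴴ * X) = k • R b b + k' • R b' b' := by
    refine CFC.sqrt_unique ?_ (nonneg_iff_posSemidef.2 (((R_psd b).smul k0).add
      ((R_psd b').smul k1)))
    ext i j
    simp only [hX, R, mul_apply, Fin.sum_univ_three, Matrix.add_apply, Matrix.smul_apply, conjTranspose_apply,
      Complex.real_smul, star_add, Complex.star_def, Complex.conj_ofReal]
    norm_cast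
    linear_combination (k ^ 2 * b i * b j) * h4 + (k' ^ 2 * b' i * b' j) * h5 +
      (k * k' * (b i * b' j + b' i * b j)) * h6 - (b i * b j) * h1 - (b' i * b' j) * h2 -
      (b i * b' j + b' i * b j) * h3
  rw [tn, this]
  simp only [trace, diag, Fin.sum_univ_three, Matrix.add_apply, Matrix.smul_apply, R, Complex.real_smul]
  norm_cast
  linear_combination k * h4 + k' * h5

theorem tn1 {a b : Fin 3 → ℝ} (e : Fin 3 → ℝ) (h1 : a ⬝ᵥ a = 1) (h4 : b ⬝ᵥ b = 1)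
    (h5 : e ⬝ᵥ e = 1) (h6 : b ⬝ᵥ e = 0) : tn (R a b) = 1 := by
  have := tn2 (a := a) (a' := 0) (b := b) (b' := e) (A := 1) (A' := 0) (B := 1) (B' := 1)
    zero_le_one le_rfl one_pos one_pos (by simpa) (by simp) (by simp) (by simpa) (by simpa) h6
    (X := R a b) (by ext; simp [R])
  simpa using this

theorem pair {a a' b b' : Fin 3 → ℝ} {c q : ℝ} (hc : 0 < c) (hq : 0 < q) (h1 : a ⬝ᵥ a = 1)
    (h2 : a' ⬝ᵥ a' = 1) (h3 : a ⬝ᵥ a' = -1 / 2) (h4 : b ⬝ᵥ b = 1) (h5 : b' ⬝ᵥ b' = 1)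
    (h6 : b ⬝ᵥ b' = 1 - 3 / 2 * c ^ 2) (h7 : q ^ 2 = 4 - 3 * c ^ 2) :
    tn (R a b + R a' b') = (q + 3 * c) / 2 := by
  have r : √3 ^ 2 = 3 := Real.sq_sqrt (by norm_num)
  have := tn2 (a := (1 / 2 : ℝ) • (a + a')) (a' := (1 / 2 : ℝ) • (a - a')) (b := b + b')
    (b' := b - b') (A := 1 / 2) (A' := √3 / 2) (B := q) (B' := √3 * c) (by norm_num) (by positivity)
    hq (by positivity) ?_ ?_ ?_ ?_ ?_ ?_ (X := R a b + R a' b') (by ext; simp [R]; ring)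
  · rw [this]; linear_combination (c / 2) * r
  all_goals
    simp only [dotProduct, Fin.sum_univ_three, Pi.smul_apply, Pi.add_apply, Pi.sub_apply,
      smul_eq_mul, mul_pow, div_pow, r] at *
    linarith

theorem result (C : ℝ) : ∃ X Y Z : Matrix (Fin 3) (Fin 3) ℂ,
    C * (D2 X Y + D2 X Z + D2 Y Z) < D3 X Y Z := by
  obtain ⟨δ, d0, d1, d2⟩ : ∃ δ : ℝ, 0 < δ ∧ δ < 1 / 2 ∧ δ * |C| < 1 / 3 := by
    refine ⟨1 / (3 * (|C| + 1)), by positivity, ?_, ?_⟩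
    · exact one_div_lt_one_div_of_lt (by norm_num) (by linarith [abs_nonneg C])
    · rw [div_mul_eq_mul_div, div_lt_div_iff₀ (by positivity) (by norm_num)]; linarith
  set c := 1 - δ with hc
  have c0 : 0 < c := by linarith
  obtain ⟨s, hs⟩ : ∃ s : ℝ, s ^ 2 = 1 - c ^ 2 := ⟨_, Real.sq_sqrt (by nlinarith)⟩
  obtain ⟨q, q0, hq⟩ : ∃ q : ℝ, 0 < q ∧ q ^ 2 = 4 - 3 * c ^ 2 :=
    ⟨_, Real.sqrt_pos.2 (by nlinarith), Real.sq_sqrt (by nlinarith)⟩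
  obtain ⟨r, hr⟩ : ∃ r : ℝ, r ^ 2 = 3 / 4 := ⟨_, Real.sq_sqrt (by norm_num)⟩
  have hcr : (c * r) ^ 2 = 3 / 4 * c ^ 2 := by rw [mul_pow, hr]; ring
  refine ⟨R ![1, 0, 0] ![c, 0, s], R ![-1 / 2, r, 0] ![-c / 2, c * r, s],
    R ![-1 / 2, -r, 0] ![-c / 2, -(c * r), s], ?_⟩
  have t := tn2 (a := ![3 / 2, 0, 0]) (a' := ![0, 3 / 2, 0]) (b := ![c, 0, 0]) (b' := ![0, c, 0])
    (A := 3 / 2) (A' := 3 / 2) (B := c) (B' := c) (by norm_num) (by norm_num) c0 c0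
    (by simp [sq]) (by simp [sq]) (by simp) (by simp [sq]) (by simp [sq]) (by simp)
    (X := R ![1, 0, 0] ![c, 0, s] + R ![-1 / 2, r, 0] ![-c / 2, c * r, s] +
      R ![-1 / 2, -r, 0] ![-c / 2, -(c * r), s]) (by
      ext i j
      simp only [R, Matrix.add_apply, ← Complex.ofReal_add, Complex.ofReal_inj]
      fin_cases i <;> fin_cases j <;> simp <;> first | ring1 | linear_combination 2 * c * hr)
  unfold D2 D3
  rw [t, tn1 ![0, 1, 0], tn1 ![r, 1 / 2, 0], tn1 ![r, -1 / 2, 0], pair c0 q0 _ _ _ _ _ _ hq,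
    pair c0 q0 _ _ _ _ _ _ hq, pair c0 q0 _ _ _ _ _ _ hq]
  · have q1 : 1 + 3 * δ - 6 * δ ^ 2 ≤ q := (abs_le_of_sq_le_sq' (by
      rw [hq, hc]; nlinarith [mul_pos (pow_pos d0 3) c0]) q0.le).2
    have q2 : q ≤ 1 + 3 * δ := (abs_le_of_sq_le_sq' (by rw [hq, hc]; nlinarith) (by linarith)).2
    have e : 0 ≤ 1 + 3 * δ - q := by linarith
    nlinarith [mul_le_mul (le_abs_self C) (show 1 + 3 * δ - q ≤ 6 * δ ^ 2 by linarith) e
      (abs_nonneg C), mul_lt_mul_of_pos_left d2 d0]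
  all_goals simp [dotProduct, Fin.sum_univ_three]
  all_goals first | linarith | nlinarith

end Pool.Agent.Results.MP_1619cf_an.TraceNorm
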